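import Pool.Agent.Q162.AM.CLS

/-!
# The number of the characters of a wreath product fixed by a field automorphism
-/

set_option autoImplicit false

open scoped Classical

noncomputable section

namespace Pool.Agent.Q162.AM

open Pool.Agent.Helper884
open Pool.Agent.H254R3.IN
open Pool.Agent.Q17.WR Pool.Agent.Q17.AM

section aut

variable {H : Type}

/-- a field automorphism acting on functions -/
def ac (s : ℂ ≃+* ℂ) (χ : H → ℂ) : H → ℂ := fun g => s (χ g)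

theorem ac_pow_zero (s : ℂ ≃+* ℂ) (χ : H → ℂ) : ac (s ^ 0) χ = χ := by
  funext g
  show (s ^ 0) (χ g) = χ g
  rw [pow_zero]
  rfl

theorem ac_pow_succ (s : ℂ ≃+* ℂ) (k : ℕ) (χ : H → ℂ) :
    ac (s ^ (k + 1)) χ = ac s (ac (s ^ k) χ) := by
  funext g
  show (s ^ (k + 1)) (χ g) = s ((s ^ k) (χ g))
  rw [pow_succ']
  rfl

theorem ac_pow_add (s : ℂ ≃+* ℂ) (k l : ℕ) (χ : H → ℂ) :
    ac (s ^ (k + l)) χ = ac (s ^ k) (ac (s ^ l) χ) := by
  funext g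
  show (s ^ (k + l)) (χ g) = (s ^ k) ((s ^ l) (χ g))
  rw [pow_add]
  rfl

theorem ac_pow_fix (s : ℂ ≃+* ℂ) (k : ℕ) (χ : H → ℂ) (h : ac s χ = χ) :
    ac (s ^ k) χ = χ := by
  induction k with
  | zero => exact ac_pow_zero s χ
  | succ k ih => rw [ac_pow_succ, ih, h]

theorem mem_Fxd {X : Set (H → ℂ)} {s : ℂ ≃+* ℂ} {χ : H → ℂ} :
    χ ∈ Fxd X s ↔ χ ∈ X ∧ ac s χ = χ := by
  constructor
  · rintro ⟨h1, h2⟩
    exact ⟨h1, funext h2⟩
  · rintro ⟨h1, h2⟩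
    exact ⟨h1, fun g => congrFun h2 g⟩

end aut

section num

variable {G : Type} [Group G] {r : ℕ} [Fact r.Prime]

attribute [local instance] fL

theorem ac_nch (s : ℂ ≃+* ℂ) (f : Cy r → G → ℂ) :
    ac s (nch f) = nch (fun ω => ac s (f ω)) := by
  funext x
  show s (nch f x) = nch (fun ω => ac s (f ω)) x
  by_cases hx : x.right = 1
  · unfold nch
    rw [if_pos hx, if_pos hx, map_sum]
    refine Finset.sum_congr rfl fun a _ => ?_
    unfold prf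
    rw [map_prod]
    rfl
  · rw [nch_off _ x hx, nch_off _ x hx, map_zero]

theorem ac_cch (s : ℂ ≃+* ℂ) (θ : G → ℂ) (l : Cy r →* ℂˣ) :
    ac s (cch θ l) = cch (ac s θ) ((Units.map (s : ℂ →* ℂ)).comp l) := by
  funext x
  show s (cch θ l x) = cch (ac s θ) ((Units.map (s : ℂ →* ℂ)).comp l) x
  by_cases hx : x.right = 1
  · unfold cch
    rw [if_pos hx, if_pos hx, map_prod]
    rfl
  · rw [cch_off _ _ x hx, cch_off _ _ x hx, map_mul]
    rfl

theorem nch_shf (f : Cy r → G → ℂ) (a : Cy r) : nch (shf f a) = nch (G := G) f := by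
  funext x
  by_cases hx : x.right = 1
  · unfold nch
    rw [if_pos hx, if_pos hx,
      ← Equiv.sum_comp (Equiv.mulLeft a) (fun b => prf (fun ω => f (b * ω)) x.left)]
    refine Finset.sum_congr rfl fun b _ => ?_
    unfold shf
    simp only [Equiv.coe_mulLeft, mul_assoc]
  · rw [nch_off _ x hx, nch_off _ x hx]

theorem shf_ncn {f : Cy r → G → ℂ} (hn : Ncn f) (a : Cy r) : Ncn (shf f a) := by
  obtain ⟨ω, ω', h⟩ := hn
  refine ⟨a⁻¹ * ω, a⁻¹ * ω', ?_⟩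
  unfold shf
  rwa [mul_inv_cancel_left, mul_inv_cancel_left]

theorem shf_inj2 (f : Cy r → G → ℂ) (hn : Ncn f) (a b : Cy r) (h : shf f a = shf f b) :
    a = b := by
  have h1 : f = shf f (b * a⁻¹) := by
    funext ω
    have h2 := congrFun h (a⁻¹ * ω)
    unfold shf at h2 ⊢
    rw [mul_inv_cancel_left] at h2
    rw [h2, mul_assoc]
  have h3 := shf_inj f hn _ h1
  exact (mul_inv_eq_one.1 h3).symm

/-- the families with `s ∘ f = f ∘ a` -/
def Ya (X : Set (G → ℂ)) (s : ℂ ≃+* ℂ) (a : Cy r) : Set (Cy r → G → ℂ) :=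
  {f | (∀ ω, f ω ∈ X) ∧ Ncn f ∧ ∀ ω, ac s (f ω) = f (a * ω)}

theorem Ya_fin (X : Set (G → ℂ)) (hX : X.Finite) (s : ℂ ≃+* ℂ) (a : Cy r) :
    (Ya X s a).Finite := by
  have h : {f : Cy r → G → ℂ | ∀ ω, f ω ∈ X}.Finite := Set.Finite.pi' fun _ => hX
  exact h.subset fun f hf => hf.1

theorem Ya_one (X : Set (G → ℂ)) (hX : X.Finite) (s : ℂ ≃+* ℂ) :
    (Ya X s (1 : Cy r)).ncard + (Fxd X s).ncard = (Fxd X s).ncard ^ r := by
  have hA : (Fxd X s).Finite := hX.subset fun χ h => h.1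
  let T : Set (Cy r → G → ℂ) := {f | ∀ ω, f ω ∈ Fxd X s}
  let S : Set (Cy r → G → ℂ) := (fun χ : G → ℂ => fun _ : Cy r => χ) '' Fxd X s
  have hS : S.ncard = (Fxd X s).ncard :=
    Set.ncard_image_of_injective _ fun χ χ' h => congrFun h 1
  have hT : T.ncard = (Fxd X s).ncard ^ r := by
    have e : T ≃ (Cy r → Fxd X s) :=
      { toFun := fun f ω => ⟨f.1 ω, f.2 ω⟩
        invFun := fun f => ⟨fun ω => (f ω).1, fun ω => (f ω).2⟩
        left_inv := fun f => rfl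
        right_inv := fun f => rfl }
    rw [← Nat.card_coe_set_eq, Nat.card_congr e, Nat.card_fun, Nat.card_eq_fintype_card (α := Cy r), fc_Cy,
      Nat.card_coe_set_eq]
  have hTf : T.Finite := Set.Finite.pi' fun _ => hA
  have hST : S ⊆ T := by
    rintro f ⟨χ, hχ, rfl⟩ ω
    exact hχ
  have hd : Ya X s (1 : Cy r) = T \ S := by
    ext f
    constructor
    · rintro ⟨h1, h2, h3⟩
      refine ⟨fun ω => mem_Fxd.2 ⟨h1 ω, by rw [h3, one_mul]⟩, ?_⟩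
      rintro ⟨χ, hχ, rfl⟩
      obtain ⟨ω, ω', hne⟩ := h2
      exact hne rfl
    · rintro ⟨h1, h2⟩
      refine ⟨fun ω => (h1 ω).1, ?_, fun ω => ?_⟩
      · by_contra hn
        apply h2
        refine ⟨f 1, h1 1, ?_⟩
        funext ω
        by_contra hne
        exact hn ⟨1, ω, hne⟩
      · rw [(mem_Fxd.1 (h1 ω)).2, one_mul]
  rw [hd, ← hT, ← hS]
  exact Set.ncard_sdiff_add_ncard_of_subset hST hTf

theorem Ya_ne (X : Set (G → ℂ)) (hX : X.Finite) (s : ℂ ≃+* ℂ)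
    (hs : ∀ χ : G → ℂ, χ ∈ X ↔ ac s χ ∈ X) (a : Cy r) (ha : a ≠ 1) :
    (Ya X s a).ncard + (Fxd X s).ncard = (Fxd X (s ^ r)).ncard := by
  have hC : (Fxd X (s ^ r)).Finite := hX.subset fun χ h => h.1
  have hAC : Fxd X s ⊆ Fxd X (s ^ r) := by
    intro χ hχ
    obtain ⟨h1, h2⟩ := mem_Fxd.1 hχ
    exact mem_Fxd.2 ⟨h1, ac_pow_fix s r χ h2⟩
  have hXk : ∀ (k : ℕ) (χ : G → ℂ), χ ∈ X → ac (s ^ k) χ ∈ X := by
    intro k
    induction k with
    | zero =>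
      intro χ hχ
      rwa [ac_pow_zero]
    | succ k ih =>
      intro χ hχ
      rw [ac_pow_succ]
      exact (hs _).1 (ih χ hχ)
  have hpow : ∀ f ∈ Ya X s a, ∀ k : ℕ, f (a ^ k) = ac (s ^ k) (f 1) := by
    intro f hf k
    induction k with
    | zero => rw [pow_zero, ac_pow_zero]
    | succ k ih => rw [pow_succ', ← hf.2.2, ih, ← ac_pow_succ]
  have hb := pw_bij a ha
  have hinj : Set.InjOn (fun f : Cy r → G → ℂ => f 1) (Ya X s a) := by
    intro f hf f' hf' h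
    funext ω
    obtain ⟨k, hk⟩ := hb.2 ω
    rw [← hk]
    show f (a ^ (k : ℕ)) = f' (a ^ (k : ℕ))
    rw [hpow f hf, hpow f' hf']
    exact congrArg (ac (s ^ (k : ℕ))) h
  have him : (fun f : Cy r → G → ℂ => f 1) '' (Ya X s a) = Fxd X (s ^ r) \ Fxd X s := by
    ext χ
    constructor
    · rintro ⟨f, hf, rfl⟩
      refine ⟨mem_Fxd.2 ⟨hf.1 1, ?_⟩, ?_⟩
      · rw [← hpow f hf r, pw_r]
      · intro h
        have h1 := (mem_Fxd.1 h).2
        obtain ⟨ω, ω', hne⟩ := hf.2.1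
        apply hne
        obtain ⟨k, hk⟩ := hb.2 ω
        obtain ⟨l, hl⟩ := hb.2 ω'
        rw [← hk, ← hl]
        show f (a ^ (k : ℕ)) = f (a ^ (l : ℕ))
        rw [hpow f hf, hpow f hf, ac_pow_fix s _ _ h1, ac_pow_fix s _ _ h1]
    · rintro ⟨h1, h2⟩
      obtain ⟨hχX, hχr⟩ := mem_Fxd.1 h1
      have hper : Function.Periodic (fun k : ℕ => ac (s ^ k) χ) r := by
        intro k
        show ac (s ^ (k + r)) χ = ac (s ^ k) χ
        rw [ac_pow_add, hχr]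
      choose κ hκ using hb.2
      have hm : ∀ k : ℕ, ac (s ^ (κ (a ^ k) : ℕ)) χ = ac (s ^ k) χ := by
        intro k
        have hr0 : 0 < r := (Fact.out : r.Prime).pos
        have e1 : a ^ k = a ^ (k % r) := by
          conv_lhs => rw [← Nat.mod_add_div k r, pow_add, pow_mul, pw_r, one_pow, mul_one]
        have e2 : κ (a ^ k) = ⟨k % r, Nat.mod_lt _ hr0⟩ := by
          apply hb.1
          rw [hκ, e1]
        rw [e2]
        exact hper.map_mod_nat k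
      have hne : ac s χ ≠ χ := fun h => h2 (mem_Fxd.2 ⟨hχX, h⟩)
      have h10 : ac (s ^ (κ (1 : Cy r) : ℕ)) χ = χ := by
        have := hm 0
        rwa [pow_zero, ac_pow_zero] at this
      refine ⟨fun ω => ac (s ^ (κ ω : ℕ)) χ, ⟨fun ω => hXk _ χ hχX, ⟨a, 1, ?_⟩, fun ω => ?_⟩, h10⟩
      · have h11 : ac (s ^ (κ a : ℕ)) χ = ac s χ := by
          have := hm 1
          rwa [pow_one, pow_one] at this
        show ac (s ^ (κ a : ℕ)) χ ≠ ac (s ^ (κ (1 : Cy r) : ℕ)) χ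
        rw [h10, h11]
        exact hne
      · have hω : ω = a ^ (κ ω : ℕ) := (hκ ω).symm
        show ac s (ac (s ^ (κ ω : ℕ)) χ) = ac (s ^ (κ (a * ω) : ℕ)) χ
        rw [← ac_pow_succ]
        have h12 : a * ω = a ^ ((κ ω : ℕ) + 1) := by
          rw [pow_succ', ← hω]
        rw [h12, hm]
  rw [← Set.ncard_sdiff_add_ncard_of_subset hAC hC, ← him, hinj.ncard_image]

/-- the linear characters fixed by `s` -/
def Lfx (r : ℕ) (s : ℂ ≃+* ℂ) : Set (Cy r →* ℂˣ) := {l | ∀ a, s (l a : ℂ) = (l a : ℂ)}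

theorem Lfx_card (s : ℂ ≃+* ℂ) : (Lfx r s).ncard =
    if ∀ ζ : ℂ, ζ ^ r = 1 → s ζ = ζ then r else 1 := by
  have hroot : ∀ (l : Cy r →* ℂˣ) (a : Cy r), (l a : ℂ) ^ r = 1 := by
    intro l a
    rw [← Units.val_pow_eq_pow_val, ← map_pow, pw_r, map_one, Units.val_one]
  by_cases h : ∀ ζ : ℂ, ζ ^ r = 1 → s ζ = ζ
  · rw [if_pos h]
    have h1 : Lfx r s = Set.univ := by
      ext l
      refine ⟨fun _ => Set.mem_univ _, fun _ a => h _ (hroot l a)⟩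
    rw [h1, Set.ncard_univ, Nat.card_eq_fintype_card, lc_card]
  · rw [if_neg h]
    push Not at h
    obtain ⟨ζ, hζ, hne⟩ := h
    have h1 : Lfx r s = {1} := by
      ext l
      rw [Set.mem_singleton_iff]
      constructor
      · intro hl
        by_contra hl1
        obtain ⟨a, ha⟩ : ∃ a, l a ≠ 1 := by
          by_contra hcon
          push Not at hcon
          exact hl1 (MonoidHom.ext hcon)
        have ha' : (l a : ℂ) ≠ 1 := fun hc => ha (Units.ext hc)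
        have hp : IsPrimitiveRoot (l a : ℂ) r := by
          rw [IsPrimitiveRoot.iff_orderOf]
          exact orderOf_eq_prime (hroot l a) ha'
        have : NeZero r := ⟨(Fact.out : r.Prime).ne_zero⟩
        obtain ⟨i, -, hi⟩ := hp.eq_pow_of_pow_eq_one hζ
        apply hne
        rw [← hi, map_pow, hl a]
      · rintro rfl a
        rw [MonoidHom.one_apply, Units.val_one, map_one]
    rw [h1, Set.ncard_singleton]

/-- the fixed characters of the first kind -/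
def P1 (r : ℕ) [Fact r.Prime] (X : Set (G → ℂ)) (s : ℂ ≃+* ℂ) : Set (Wc G r → ℂ) :=
  {χ | (∃ f : Cy r → G → ℂ, (∀ ω, f ω ∈ X) ∧ Ncn f ∧ χ = nch f) ∧ ac s χ = χ}

/-- the fixed characters of the second kind -/
def P2 (r : ℕ) [Fact r.Prime] (X : Set (G → ℂ)) (s : ℂ ≃+* ℂ) : Set (Wc G r → ℂ) :=
  {χ | (∃ θ ∈ X, ∃ l : Cy r →* ℂˣ, χ = cch θ l) ∧ ac s χ = χ}

theorem P2_card [Fintype G] (hC : S_CLS) (X : Set (G → ℂ)) (hX : ∀ χ ∈ X, IsIrr χ)
    (s : ℂ ≃+* ℂ) (hs : ∀ χ : G → ℂ, χ ∈ X ↔ ac s χ ∈ X) :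
    (P2 r X s).ncard = (Fxd X s).ncard * (Lfx r s).ncard := by
  obtain ⟨-, -, -, -, c5, -⟩ := hC G r
  have h1 : P2 r X s = (fun q : (G → ℂ) × (Cy r →* ℂˣ) => cch (r := r) q.1 q.2) ''
      (Fxd X s ×ˢ Lfx r s) := by
    ext χ
    constructor
    · rintro ⟨⟨θ, hθ, l, rfl⟩, hf⟩
      rw [ac_cch] at hf
      obtain ⟨h1, h2⟩ := c5 _ _ _ _ (hX _ ((hs θ).1 hθ)) (hX θ hθ) hf
      refine ⟨(θ, l), ⟨mem_Fxd.2 ⟨hθ, h1⟩, fun a => ?_⟩, rfl⟩
      have h3 := congrArg (fun u : ℂˣ => (u : ℂ)) (DFunLike.congr_fun h2 a)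
      exact h3
    · rintro ⟨⟨θ, l⟩, ⟨hθ, hl⟩, rfl⟩
      obtain ⟨h1, h2⟩ := mem_Fxd.1 hθ
      refine ⟨⟨θ, h1, l, rfl⟩, ?_⟩
      show ac s (cch θ l) = cch θ l
      rw [ac_cch]
      have h3 : (Units.map (s : ℂ →* ℂ)).comp l = l := by
        refine MonoidHom.ext fun a => Units.ext ?_
        exact hl a
      have h2' : ac s θ = θ := h2
      rw [h3, h2']
  have hinj : Set.InjOn (fun q : (G → ℂ) × (Cy r →* ℂˣ) => cch (r := r) q.1 q.2)
      (Fxd X s ×ˢ Lfx r s) := by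
    rintro ⟨θ, l⟩ ⟨hθ, -⟩ ⟨θ', l'⟩ ⟨hθ', -⟩ h
    obtain ⟨h1, h2⟩ := c5 _ _ _ _ (hX θ hθ.1) (hX θ' hθ'.1) h
    exact Prod.ext h1 h2
  rw [h1, hinj.ncard_image, Set.ncard_prod]

theorem nch_fix [Fintype G] (hC : S_CLS) (X : Set (G → ℂ)) (hX : ∀ χ ∈ X, IsIrr χ)
    (s : ℂ ≃+* ℂ) (hs : ∀ χ : G → ℂ, χ ∈ X ↔ ac s χ ∈ X) (f : Cy r → G → ℂ)
    (hf : ∀ ω, f ω ∈ X) (hn : Ncn f) :
    ac s (nch f) = nch f ↔ ∃ a : Cy r, f ∈ Ya X s a := by
  obtain ⟨-, -, -, c4, -, -⟩ := hC G r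
  constructor
  · intro h
    rw [ac_nch] at h
    obtain ⟨a, ha⟩ := c4 f (fun ω => ac s (f ω)) (fun ω => hX _ (hf ω))
      (fun ω => hX _ ((hs _).1 (hf ω))) hn h.symm
    exact ⟨a, hf, hn, fun ω => congrFun ha ω⟩
  · rintro ⟨a, -, -, ha⟩
    rw [ac_nch, ← nch_shf f a]
    congr 1
    funext ω
    exact ha ω

theorem P1_card [Fintype G] (hC : S_CLS) (X : Set (G → ℂ)) (hX : ∀ χ ∈ X, IsIrr χ)
    (s : ℂ ≃+* ℂ) (hs : ∀ χ : G → ℂ, χ ∈ X ↔ ac s χ ∈ X) :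
    r * (P1 r X s).ncard = ∑ a : Cy r, (Ya X s a).ncard := by
  have hXf : X.Finite := by
    refine (IC.irr_finite (G := G)).subset fun χ hχ => ?_
    exact hX χ hχ
  have hC' := hC G r
  obtain ⟨-, -, -, c4, -, -⟩ := hC'
  let Y : Set (Cy r → G → ℂ) := {f | ∃ a : Cy r, f ∈ Ya X s a}
  have hsec : ∀ χ : P1 r X s, ∃ f : Cy r → G → ℂ, f ∈ Y ∧ nch f = χ.1 := by
    rintro ⟨χ, ⟨f, hf, hn, rfl⟩, hfix⟩
    exact ⟨f, (nch_fix hC X hX s hs f hf hn).1 hfix, rfl⟩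
  choose σ hσ hσ' using hsec
  have hYsh : ∀ f ∈ Y, ∀ a : Cy r, shf f a ∈ Y := by
    rintro f ⟨b, h1, h2, h3⟩ a
    refine ⟨b, fun ω => h1 _, shf_ncn h2 a, fun ω => ?_⟩
    unfold shf
    rw [h3, mul_left_comm]
  have e1 : (P1 r X s) × Cy r ≃ Y := by
    refine Equiv.ofBijective (fun q => ⟨shf (σ q.1) q.2, hYsh _ (hσ q.1) q.2⟩) ⟨?_, ?_⟩
    · rintro ⟨χ, a⟩ ⟨χ', a'⟩ h
      have h1 : shf (σ χ) a = shf (σ χ') a' := congrArg Subtype.val h
      have h2 : χ = χ' := by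
        apply Subtype.ext
        rw [← hσ' χ, ← hσ' χ', ← nch_shf (σ χ) a, ← nch_shf (σ χ') a', h1]
      subst h2
      obtain ⟨b, hb⟩ := hσ χ
      have h3 := shf_inj2 (σ χ) hb.2.1 a a' h1
      rw [h3]
    · rintro ⟨f, b, hf1, hf2, hf3⟩
      have hm : nch f ∈ P1 r X s :=
        ⟨⟨f, hf1, hf2, rfl⟩, (nch_fix hC X hX s hs f hf1 hf2).2 ⟨b, hf1, hf2, hf3⟩⟩
      obtain ⟨b', hb'⟩ := hσ ⟨nch f, hm⟩
      have h1 : nch (σ ⟨nch f, hm⟩) = nch f := hσ' ⟨nch f, hm⟩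
      obtain ⟨a, ha⟩ := c4 (σ ⟨nch f, hm⟩) f (fun ω => hX _ (hb'.1 ω)) (fun ω => hX _ (hf1 ω))
        hb'.2.1 h1
      refine ⟨(⟨nch f, hm⟩, a), ?_⟩
      apply Subtype.ext
      exact ha.symm
  have e2 : (Σ a : Cy r, Ya X s a) ≃ Y := by
    refine Equiv.ofBijective (fun q => ⟨q.2.1, q.1, q.2.2⟩) ⟨?_, ?_⟩
    · rintro ⟨a, f, hf⟩ ⟨b, f', hf'⟩ h
      have h1 : f = f' := congrArg Subtype.val h
      subst h1
      have h2 : a = b := by
        apply shf_inj2 f hf.2.1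
        funext ω
        show f (a * ω) = f (b * ω)
        rw [← hf.2.2, ← hf'.2.2]
      subst h2
      rfl
    · rintro ⟨f, a, hf⟩
      exact ⟨⟨a, f, hf⟩, rfl⟩
  have : ∀ a : Cy r, Finite (Ya X s a) := fun a => (Ya_fin X hXf s a).to_subtype
  have h1 : Nat.card ((P1 r X s) × Cy r) = Nat.card (Σ a : Cy r, Ya X s a) :=
    Nat.card_congr (e1.trans e2.symm)
  rw [Nat.card_prod, Nat.card_sigma, Nat.card_coe_set_eq, Nat.card_eq_fintype_card (α := Cy r),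
    fc_Cy, mul_comm] at h1
  rw [h1]
  exact Finset.sum_congr rfl fun a _ => Nat.card_coe_set_eq _

end num

/-- JOB NUM -/
theorem t_NUM : S_CLS → S_NUM := by
  intro hC G _ _ r _ X hX s hs
  have hs' : ∀ χ : G → ℂ, χ ∈ X ↔ ac s χ ∈ X := hs
  have hXf : X.Finite := by
    refine (IC.irr_finite (G := G)).subset fun χ hχ => ?_
    exact hX χ hχ
  have hr1 : 1 ≤ r := (Fact.out : r.Prime).pos
  -- the union
  have h1 : Fxd (LX (r := r) X) s = P1 r X s ∪ P2 r X s := by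
    ext χ
    constructor
    · intro h
      obtain ⟨h2, h3⟩ := mem_Fxd.1 h
      rcases h2 with h2 | h2
      · exact Or.inl ⟨h2, h3⟩
      · exact Or.inr ⟨h2, h3⟩
    · rintro (⟨h2, h3⟩ | ⟨h2, h3⟩)
      · exact mem_Fxd.2 ⟨Or.inl h2, h3⟩
      · exact mem_Fxd.2 ⟨Or.inr h2, h3⟩
  have hdis : Disjoint (P1 r X s) (P2 r X s) := by
    rw [Set.disjoint_left]
    rintro χ ⟨⟨f, hf, hn, rfl⟩, -⟩ ⟨⟨θ, hθ, l, h⟩, -⟩
    exact (hC G r).2.2.2.2.2 f θ l (fun ω => hX _ (hf ω)) hn (hX θ hθ) h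
  letI : Fintype (Wc G r) := fW
  have hfin : ({χ : Wc G r → ℂ | IsIrr χ}).Finite := IC.irr_finite (G := Wc G r)
  have hf1 : (P1 r X s).Finite := by
    refine hfin.subset ?_
    rintro χ ⟨⟨f, hf, hn, rfl⟩, -⟩
    exact (hC G r).1 f (fun ω => hX _ (hf ω)) hn
  have hf2 : (P2 r X s).Finite := by
    refine hfin.subset ?_
    rintro χ ⟨⟨θ, hθ, l, rfl⟩, -⟩
    exact (hC G r).2.1 θ (hX θ hθ) l
  have h2 : (Fxd (LX (r := r) X) s).ncard = (P1 r X s).ncard + (P2 r X s).ncard := by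
    rw [h1, Set.ncard_union_eq hdis hf1 hf2]
  have h3 := P1_card (r := r) hC X hX s hs'
  have h4 := P2_card (r := r) hC X hX s hs'
  rw [Lfx_card] at h4
  have h5 : (∑ a : Cy r, (Ya X s a).ncard) + r * (Fxd X s).ncard =
      (Fxd X s).ncard ^ r + (r - 1) * (Fxd X (s ^ r)).ncard := by
    have h6 : ∀ a ∈ (Finset.univ : Finset (Cy r)).erase 1,
        (Ya X s a).ncard + (Fxd X s).ncard = (Fxd X (s ^ r)).ncard := fun a ha =>
      Ya_ne X hXf s hs' a (Finset.ne_of_mem_erase ha)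
    have h7 : ∑ a : Cy r, ((Ya X s a).ncard + (Fxd X s).ncard) =
        (Fxd X s).ncard ^ r + (r - 1) * (Fxd X (s ^ r)).ncard := by
      rw [← Finset.add_sum_erase _ _ (Finset.mem_univ (1 : Cy r)), Finset.sum_congr rfl h6,
        Finset.sum_const, Finset.card_erase_of_mem (Finset.mem_univ _), Finset.card_univ, fc_Cy,
        smul_eq_mul, Ya_one X hXf s]
    rw [← h7, Finset.sum_add_distrib, Finset.sum_const, Finset.card_univ, fc_Cy, smul_eq_mul]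
  have h8 : ((r - 1 : ℕ) : ℤ) = (r : ℤ) - 1 := by
    rw [Nat.cast_sub hr1, Nat.cast_one]
  have h9 : ((r * (P1 r X s).ncard + r * (Fxd X s).ncard : ℕ) : ℤ) =
      (((Fxd X s).ncard ^ r + (r - 1) * (Fxd X (s ^ r)).ncard : ℕ) : ℤ) := by
    rw [h3, h5]
  push_cast at h9
  rw [Nat.cast_sub hr1, Nat.cast_one] at h9
  rw [h2, h4]
  push_cast
  by_cases hζ : ∀ ζ : ℂ, ζ ^ r = 1 → s ζ = ζ
  · rw [if_pos hζ, if_pos hζ]
    linear_combination h9
  · rw [if_neg hζ, if_neg hζ]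
    linear_combination h9

end Pool.Agent.Q162.AM
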