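import Pool.Agent.Q162.AM.TRC

/-!
# Conjugacy classes and central characters of a wreath product with a cyclic group of prime order
-/

set_option autoImplicit false

open scoped Classical

noncomputable section

namespace Pool.Agent.Q162.AM

open Pool.Agent.H254R3.IN
open Pool.Agent.Q17.WR Pool.Agent.Q17.AM

variable {G : Type} [Group G] {r : ℕ}

theorem inv_lf (x : Wc G r) (ω : Cy r) : (x⁻¹).left ω = (x.left (x.right * ω))⁻¹ := by
  have h : (x⁻¹).left ω = (x.left ((x.right⁻¹)⁻¹ * ω))⁻¹ := rfl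
  rw [h, inv_inv]

theorem mul_lf (x y : Wc G r) (ω : Cy r) :
    (x * y).left ω = x.left ω * y.left (x.right⁻¹ * ω) := rfl

theorem pow_rt (x : Wc G r) (n : ℕ) : (x ^ n).right = x.right ^ n :=
  map_pow (SemidirectProduct.rightHom : Wc G r →* Cy r) x n

theorem cj_lf (z x : Wc G r) (ω : Cy r) : (z * x * z⁻¹).left ω =
    z.left ω * x.left (z.right⁻¹ * ω) * (z.left (x.right⁻¹ * ω))⁻¹ := by
  rw [mul_lf, inv_lf, mul_lf]
  have h : z.right * ((z * x).right⁻¹ * ω) = x.right⁻¹ * ω := by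
    show z.right * ((z.right * x.right)⁻¹ * ω) = _
    rw [mul_inv, mul_assoc, mul_inv_cancel_left]
  rw [h]

theorem cj_rt (z x : Wc G r) : (z * x * z⁻¹).right = x.right := by
  show z.right * x.right * z.right⁻¹ = x.right
  rw [mul_comm z.right, mul_inv_cancel_right]

theorem cl1 (x y : Wc G r) (hx : x.right = 1) : IsConj x y ↔
    y.right = 1 ∧ ∃ a : Cy r, ∀ ω, IsConj (x.left (a * ω)) (y.left ω) := by
  rw [isConj_iff]
  constructor
  · rintro ⟨z, rfl⟩
    refine ⟨by rw [cj_rt, hx], z.right⁻¹, fun ω => ?_⟩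
    rw [cj_lf, isConj_iff, hx, inv_one, one_mul]
    exact ⟨z.left ω, rfl⟩
  · rintro ⟨hy, a, ha⟩
    choose c hc using fun ω => isConj_iff.1 (ha ω)
    refine ⟨⟨c, a⁻¹⟩, ?_⟩
    apply SemidirectProduct.ext
    · funext ω
      rw [cj_lf, hx, inv_one, one_mul]
      show c ω * x.left ((a⁻¹)⁻¹ * ω) * (c ω)⁻¹ = y.left ω
      rw [inv_inv]
      exact hc ω
    · rw [cj_rt, hx, hy]

variable [Fact r.Prime]

theorem cj_pw (x : Wc G r) (hx : x.right ≠ 1) (b : Cy r) :
    IsConj ((x ^ r).left 1) ((x ^ r).left b) := by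
  have hr : (x ^ r).right = 1 := by rw [pow_rt, pw_r]
  obtain ⟨k, hk⟩ := (pw_bij (x.right⁻¹) (by rwa [Ne, inv_eq_one])).2 b
  have hk' : (x.right⁻¹) ^ (k : ℕ) = b := hk
  rw [← hk']
  generalize (k : ℕ) = j
  induction j with
  | zero => rw [pow_zero]
  | succ j ih =>
    refine ih.trans ?_
    have h1 : (x * x ^ r).left ((x.right⁻¹) ^ j) = (x ^ r * x).left ((x.right⁻¹) ^ j) := by
      rw [← pow_succ, ← pow_succ']
    rw [mul_lf, mul_lf, hr, inv_one, one_mul, ← pow_succ'] at h1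
    rw [isConj_iff]
    refine ⟨(x.left ((x.right⁻¹) ^ j))⁻¹, ?_⟩
    rw [inv_inv, mul_assoc, ← h1, inv_mul_cancel_left]

theorem cl2 (x y : Wc G r) (hx : x.right ≠ 1) : IsConj x y ↔
    y.right = x.right ∧ IsConj ((x ^ r).left 1) ((y ^ r).left 1) := by
  rw [isConj_iff]
  constructor
  · rintro ⟨z, rfl⟩
    refine ⟨cj_rt z x, ?_⟩
    rw [conj_pow, cj_lf]
    have hr : (x ^ r).right = 1 := by rw [pow_rt, pw_r]
    rw [hr, inv_one, one_mul]
    refine (cj_pw x hx (z.right⁻¹ * 1)).trans ?_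
    rw [isConj_iff]
    exact ⟨z.left 1, rfl⟩
  · rintro ⟨hy, hu⟩
    obtain ⟨u, hu⟩ := isConj_iff.1 hu
    have hxr : (x ^ r).right = 1 := by rw [pow_rt, pw_r]
    have hyr : (y ^ r).right = 1 := by rw [pow_rt, pw_r]
    let M : ℕ → G := fun k => ((y ^ k).left 1)⁻¹ * u * (x ^ k).left 1
    have hper : Function.Periodic M r := by
      intro k
      show ((y ^ (k + r)).left 1)⁻¹ * u * (x ^ (k + r)).left 1 = ((y ^ k).left 1)⁻¹ * u * (x ^ k).left 1
      rw [add_comm, pow_add, pow_add, mul_lf, mul_lf, hxr, hyr, inv_one, one_mul, ← hu]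
      group
    have hb := pw_bij (x.right⁻¹) (by rwa [Ne, inv_eq_one])
    choose κ hκ using hb.2
    have hm : ∀ k : ℕ, M (κ ((x.right⁻¹) ^ k)) = M k := by
      intro k
      have hr0 : 0 < r := (Fact.out : r.Prime).pos
      have e1 : (x.right⁻¹) ^ k = (x.right⁻¹) ^ (k % r) := by
        conv_lhs => rw [← Nat.mod_add_div k r, pow_add, pow_mul, pw_r, one_pow, mul_one]
      have e2 : κ ((x.right⁻¹) ^ k) = ⟨k % r, Nat.mod_lt _ hr0⟩ := by
        apply hb.1
        rw [hκ, e1]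
      rw [e2]
      exact hper.map_mod_nat k
    refine ⟨⟨fun ω => M (κ ω), 1⟩, ?_⟩
    apply SemidirectProduct.ext
    · funext ω
      rw [cj_lf]
      show M (κ ω) * x.left ((1 : Cy r)⁻¹ * ω) * (M (κ (x.right⁻¹ * ω)))⁻¹ = y.left ω
      have hω : ω = (x.right⁻¹) ^ (κ ω : ℕ) := (hκ ω).symm
      generalize (κ ω : ℕ) = k at hω
      rw [hω, ← pow_succ', hm, inv_one, one_mul]
      show ((y ^ k).left 1)⁻¹ * u * (x ^ k).left 1 * x.left ((x.right⁻¹) ^ k) *
        (((y ^ (k + 1)).left 1)⁻¹ * u * (x ^ (k + 1)).left 1)⁻¹ = y.left ((x.right⁻¹) ^ k)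
      rw [pow_succ_left, pow_succ_left, mul_one, hy, mul_one]
      group
    · rw [cj_rt, hy]

/-- the product of the components along the powers of `a` -/
def Pm (r : ℕ) (a : Cy r) (m : Cy r → G) : G := ((⟨m, a⟩ : Wc G r) ^ r).left 1

theorem Pm_shift (a : Cy r) (ha : a ≠ 1) (m : Cy r → G) (h : G) :
    Pm r a (Pi.mulSingle 1 h * m) = h * Pm r a m := by
  have hb := pw_bij (a⁻¹) (by rwa [Ne, inv_eq_one])
  have key : ∀ k : ℕ, k + 1 ≤ r → ((⟨Pi.mulSingle 1 h * m, a⟩ : Wc G r) ^ (k + 1)).left 1 =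
      h * ((⟨m, a⟩ : Wc G r) ^ (k + 1)).left 1 := by
    intro k
    induction k with
    | zero =>
      intro _
      rw [zero_add, pow_one, pow_one]
      show (Pi.mulSingle 1 h : Cy r → G) 1 * m 1 = h * m 1
      rw [Pi.mulSingle_eq_same]
    | succ k ih =>
      intro hk
      rw [pow_succ_left, ih (by omega), pow_succ_left _ (k + 1), mul_assoc]
      congr 2
      show (Pi.mulSingle 1 h : Cy r → G) ((a⁻¹) ^ (k + 1) * 1) * m ((a⁻¹) ^ (k + 1) * 1) =
        m ((a⁻¹) ^ (k + 1) * 1)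
      have hne : (a⁻¹) ^ (k + 1) * 1 ≠ 1 := by
        rw [mul_one]
        intro hc
        have h0 : 0 < r := (Fact.out : r.Prime).pos
        have := @hb.1 ⟨k + 1, by omega⟩ ⟨0, h0⟩ (by
          show (a⁻¹) ^ (k + 1) = (a⁻¹) ^ 0
          rw [hc, pow_zero])
        have := congrArg Fin.val this
        simp at this
      rw [Pi.mulSingle_eq_of_ne hne, one_mul]
  have hr1 : 1 ≤ r := (Fact.out : r.Prime).pos
  have := key (r - 1) (by omega)
  rw [Nat.sub_add_cancel hr1] at this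
  exact this

theorem sum_Pm [Fintype G] (a : Cy r) (ha : a ≠ 1) (F : G → ℂ) :
    ∑ m : Cy r → G, F (Pm r a m) = (Nat.card G : ℂ) ^ (r - 1) * ∑ g, F g := by
  have hG : (Nat.card G : ℂ) ≠ 0 := Nat.cast_ne_zero.2 Nat.card_pos.ne'
  apply mul_left_cancel₀ hG
  have h1 : ∀ h : G, ∑ m : Cy r → G, F (Pm r a m) = ∑ m : Cy r → G, F (h * Pm r a m) := by
    intro h
    rw [← Equiv.sum_comp (Equiv.mulLeft (Pi.mulSingle 1 h : Cy r → G))]
    refine Finset.sum_congr rfl fun m _ => ?_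
    rw [Equiv.coe_mulLeft, Pm_shift a ha]
  have h2 : (Nat.card G : ℂ) * ∑ m : Cy r → G, F (Pm r a m) =
      ∑ h : G, ∑ m : Cy r → G, F (h * Pm r a m) := by
    rw [← Finset.sum_congr rfl fun h _ => h1 h, Finset.sum_const, Finset.card_univ,
      nsmul_eq_mul, Nat.card_eq_fintype_card]
  rw [h2, Finset.sum_comm]
  have h3 : ∀ m : Cy r → G, ∑ h : G, F (h * Pm r a m) = ∑ g, F g := fun m =>
    Equiv.sum_comp (Equiv.mulRight (Pm r a m)) F
  rw [Finset.sum_congr rfl fun m _ => h3 m, Finset.sum_const, Finset.card_univ, nsmul_eq_mul,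
    ← mul_assoc]
  congr 1
  rw [Fintype.card_fun, Nat.card_eq_fintype_card]
  have hc : Fintype.card (Cy r) = r := fc_Cy
  rw [hc, Nat.cast_pow, ← pow_succ', Nat.sub_add_cancel (Fact.out : r.Prime).pos]

theorem card_cl2 [Fintype G] (x : Wc G r) (hx : x.right ≠ 1) :
    (Nat.card {y : Wc G r // IsConj x y} : ℂ) =
      (Nat.card G : ℂ) ^ (r - 1) * (Nat.card {y : G // IsConj ((x ^ r).left 1) y} : ℂ) := by
  have e : {y : Wc G r // IsConj x y} ≃
      {m : Cy r → G // IsConj ((x ^ r).left 1) (Pm r x.right m)} :=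
    { toFun := fun y => ⟨y.1.left, by
        have h := (cl2 x y.1 hx).1 y.2
        have h2 : (⟨y.1.left, x.right⟩ : Wc G r) = y.1 := SemidirectProduct.ext rfl h.1.symm
        show IsConj _ (((⟨y.1.left, x.right⟩ : Wc G r) ^ r).left 1)
        rw [h2]
        exact h.2⟩
      invFun := fun m => ⟨⟨m.1, x.right⟩, (cl2 x _ hx).2 ⟨rfl, m.2⟩⟩
      left_inv := fun y => by
        apply Subtype.ext
        exact SemidirectProduct.ext rfl ((cl2 x y.1 hx).1 y.2).1.symm
      right_inv := fun m => rfl }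
  rw [Nat.card_congr e]
  have h1 : (Nat.card {m : Cy r → G // IsConj ((x ^ r).left 1) (Pm r x.right m)} : ℂ) =
      ∑ m : Cy r → G, (fun g => if IsConj ((x ^ r).left 1) g then (1 : ℂ) else 0)
        (Pm r x.right m) := by
    rw [Nat.card_eq_fintype_card, Fintype.card_subtype, Finset.card_filter, Nat.cast_sum]
    refine Finset.sum_congr rfl fun m _ => ?_
    push_cast
    rfl
  have h2 : (Nat.card {y : G // IsConj ((x ^ r).left 1) y} : ℂ) =
      ∑ g : G, (fun g => if IsConj ((x ^ r).left 1) g then (1 : ℂ) else 0) g := by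
    rw [Nat.card_eq_fintype_card, Fintype.card_subtype, Finset.card_filter, Nat.cast_sum]
    refine Finset.sum_congr rfl fun m _ => ?_
    push_cast
    rfl
  rw [h1, h2]
  exact sum_Pm (G := G) x.right hx
    (fun g => if IsConj ((x ^ r).left 1) g then (1 : ℂ) else 0)

theorem card_K [Fintype G] (x : Wc G r) (a : Cy r) :
    Nat.card {m : Cy r → G // ∀ ω, IsConj (x.left (a * ω)) (m ω)} =
      ∏ ω, Nat.card {y : G // IsConj (x.left ω) y} := by
  rw [Nat.card_congr (Equiv.subtypePiEquivPi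
    (p := fun (ω : Cy r) (y : G) => IsConj (x.left (a * ω)) y)), Nat.card_pi]
  exact Equiv.prod_comp (Equiv.mulLeft a) (fun ω => Nat.card {y : G // IsConj (x.left ω) y})

theorem card_cl1 [Fintype G] (x : Wc G r) (hx : x.right = 1) : ∃ n : ℕ,
    Nat.card {y : Wc G r // IsConj x y} = n * ∏ ω, Nat.card {y : G // IsConj (x.left ω) y} ∧
    (n = 1 ∨ n = r) := by
  have e : {y : Wc G r // IsConj x y} ≃
      {m : Cy r → G // ∃ a : Cy r, ∀ ω, IsConj (x.left (a * ω)) (m ω)} :=
    { toFun := fun y => ⟨y.1.left, ((cl1 x y.1 hx).1 y.2).2⟩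
      invFun := fun m => ⟨⟨m.1, 1⟩, (cl1 x _ hx).2 ⟨rfl, m.2⟩⟩
      left_inv := fun y => by
        apply Subtype.ext
        exact SemidirectProduct.ext rfl ((cl1 x y.1 hx).1 y.2).1.symm
      right_inv := fun m => rfl }
  rw [Nat.card_congr e]
  by_cases hH : ∃ a : Cy r, a ≠ 1 ∧ ∀ ω, IsConj (x.left (a * ω)) (x.left ω)
  · obtain ⟨a, ha, hc⟩ := hH
    refine ⟨1, ?_, Or.inl rfl⟩
    have hk : ∀ (k : ℕ) (ω : Cy r), IsConj (x.left (a ^ k * ω)) (x.left ω) := by
      intro k
      induction k with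
      | zero => intro ω; rw [pow_zero, one_mul]
      | succ k ih =>
        intro ω
        rw [pow_succ, mul_assoc]
        exact (ih _).trans (hc ω)
    have hall : ∀ (b ω : Cy r), IsConj (x.left (b * ω)) (x.left ω) := by
      intro b ω
      obtain ⟨k, hk'⟩ := (pw_bij a ha).2 b
      rw [← hk']
      exact hk k ω
    rw [one_mul, ← card_K x 1]
    apply Nat.card_congr
    apply Equiv.subtypeEquivRight
    intro m
    constructor
    · rintro ⟨b, hb⟩ ω
      rw [one_mul]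
      exact (hall b ω).symm.trans (hb ω)
    · intro h
      exact ⟨1, h⟩
  · push Not at hH
    refine ⟨r, ?_, Or.inr rfl⟩
    have e2 : (Σ a : Cy r, {m : Cy r → G // ∀ ω, IsConj (x.left (a * ω)) (m ω)}) ≃
        {m : Cy r → G // ∃ a : Cy r, ∀ ω, IsConj (x.left (a * ω)) (m ω)} := by
      refine Equiv.ofBijective (fun q => ⟨q.2.1, q.1, q.2.2⟩) ⟨?_, ?_⟩
      · rintro ⟨a, m, hm⟩ ⟨b, m', hm'⟩ h
        have hmm : m = m' := congrArg Subtype.val h
        subst hmm
        have hab : a = b := by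
          by_contra hab
          have h1 : b⁻¹ * a ≠ 1 := by
            intro h1
            exact hab (inv_mul_eq_one.1 h1).symm
          obtain ⟨ω, hω⟩ := hH _ h1
          apply hω
          have h2 := (hm (b⁻¹ * ω)).trans (hm' (b⁻¹ * ω)).symm
          rw [mul_inv_cancel_left] at h2
          have h3 : b⁻¹ * a * ω = a * (b⁻¹ * ω) := by
            rw [mul_comm b⁻¹ a, mul_assoc]
          rw [h3]
          exact h2
        subst hab
        rfl
      · rintro ⟨m, a, hm⟩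
        exact ⟨⟨a, m, hm⟩, rfl⟩
    rw [← Nat.card_congr e2, Nat.card_sigma, Finset.sum_congr rfl fun a _ => card_K x a,
      Finset.sum_const, Finset.card_univ, smul_eq_mul]
    congr 1
    exact fc_Cy

theorem prod_shift (f : Cy r → G → ℂ) (a : Cy r) :
    ∏ ω, f (a * ω) 1 = ∏ ω, f ω 1 :=
  Equiv.prod_comp (Equiv.mulLeft a) (fun ω => f ω 1)

theorem nch_one (f : Cy r → G → ℂ) : nch f 1 = (r : ℂ) * ∏ ω, f ω 1 := by
  have h : nch f 1 = ∑ a : Cy r, ∏ ω, f (a * ω) 1 := by
    unfold nch prf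
    have h0 : (1 : Wc G r).right = 1 := rfl
    rw [if_pos h0]
    rfl
  rw [h, Finset.sum_congr rfl fun a _ => prod_shift f a, Finset.sum_const, Finset.card_univ,
    nsmul_eq_mul]
  have hc : Fintype.card (Cy r) = r := fc_Cy
  rw [hc]

theorem cch_one (θ : G → ℂ) (l : Cy r →* ℂˣ) : cch θ l 1 = ∏ _ω : Cy r, θ 1 := by
  unfold cch
  have h0 : (1 : Wc G r).right = 1 := rfl
  rw [if_pos h0]
  rfl

/-- JOB CCL -/
theorem t_CCL : S_CCL := by
  intro G _ _ r _
  have hr0 : (r : ℂ) ≠ 0 := Nat.cast_ne_zero.2 (Fact.out : r.Prime).ne_zero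
  refine ⟨?_, ?_⟩
  · intro x hx
    obtain ⟨n, hn, hn1⟩ := card_cl1 x hx
    refine ⟨n, hn, hn1, ?_, ?_⟩
    · intro f
      unfold omega
      rw [hn, nch_one]
      have h1 : nch f x = ∑ a : Cy r, ∏ ω, f (a * ω) (x.left ω) := by
        unfold nch prf
        rw [if_pos hx]
      have h2 : ∀ a : Cy r, ∏ ω, ((Nat.card {y : G // IsConj (x.left ω) y} : ℂ) *
          f (a * ω) (x.left ω) / f (a * ω) 1) =
          (∏ ω, (Nat.card {y : G // IsConj (x.left ω) y} : ℂ)) *
            (∏ ω, f (a * ω) (x.left ω)) / ∏ ω, f ω 1 := by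
        intro a
        rw [Finset.prod_div_distrib, Finset.prod_mul_distrib, prod_shift]
      rw [h1, Finset.sum_congr rfl fun a _ => h2 a, ← Finset.sum_div, ← Finset.mul_sum]
      push_cast
      rw [mul_div_assoc', mul_div_mul_left _ _ hr0]
      ring
    · intro θ l
      unfold omega
      rw [hn, cch_one]
      have h1 : cch θ l x = ∏ ω, θ (x.left ω) := by
        unfold cch
        rw [if_pos hx]
      rw [h1, Finset.prod_div_distrib, Finset.prod_mul_distrib]
      push_cast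
      ring
  · intro x hx
    refine ⟨fun f => ?_, fun θ l hθ => ?_⟩
    · unfold omega
      have h1 : nch f x = 0 := by
        unfold nch
        rw [if_neg hx]
      rw [h1, mul_zero, zero_div]
    · unfold omega
      rw [card_cl2 x hx, cch_one]
      have h1 : cch θ l x = (l x.right : ℂ) * θ ((x ^ r).left 1) := by
        unfold cch
        rw [if_neg hx]
      have hc : Fintype.card (Cy r) = r := fc_Cy
      rw [h1, Finset.prod_const, Finset.card_univ, hc]
      obtain ⟨n, hn⟩ : ∃ n, r = n + 1 :=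
        ⟨r - 1, (Nat.succ_pred_prime (Fact.out : r.Prime)).symm⟩
      have hp : θ 1 ^ r = θ 1 ^ (r - 1) * θ 1 := by
        rw [← pow_succ, Nat.sub_add_cancel (Fact.out : r.Prime).pos]
      rw [hp, div_pow]
      field_simp

end Pool.Agent.Q162.AM
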