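import Pool.Agent.Q162.AM.CCL
import Pool.Agent.Q150.WR.ZPR

/-!
# The irreducible characters of a wreath product with a cyclic group of prime order
-/

set_option autoImplicit false

open scoped Classical

noncomputable section

namespace Pool.Agent.Q162.AM

open Pool.Agent.Helper884
open Pool.Agent.H254R3.IN
open Pool.Agent.Q17.WR Pool.Agent.Q17.AM
open Pool.Agent.Q17.TC (t_IRN t_HOM)
open Pool.Agent.Q150.WR (B_prf)

section lin

variable {r : ℕ} [Fact r.Prime]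

theorem enr : HasEnoughRootsOfUnity ℂ (Monoid.exponent (Cy r)) := by
  have : NeZero ((Monoid.exponent (Cy r) : ℕ) : ℂ) :=
    ⟨Nat.cast_ne_zero.2 Monoid.exponent_ne_zero_of_finite⟩
  infer_instance

/-- the linear characters of `Cy r` form a finite set -/
@[instance_reducible]
def fL : Fintype (Cy r →* ℂˣ) := by
  haveI := enr (r := r)
  exact Fintype.ofEquiv (Cy r)
    (CommGroup.monoidHom_mulEquiv_of_hasEnoughRootsOfUnity (Cy r) ℂ).some.symm.toEquiv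

attribute [local instance] fL

theorem lc_card : Fintype.card (Cy r →* ℂˣ) = r := by
  have := enr (r := r)
  rw [Fintype.card_congr
    (CommGroup.monoidHom_mulEquiv_of_hasEnoughRootsOfUnity (Cy r) ℂ).some.toEquiv, fc_Cy]

theorem lc_sum (a : Cy r) (ha : a ≠ 1) : ∑ l : Cy r →* ℂˣ, (l a : ℂ) = 0 := by
  have := enr (r := r)
  obtain ⟨l₀, hl₀⟩ := CommGroup.exists_apply_ne_one_of_hasEnoughRootsOfUnity (Cy r) ℂ ha
  have h1 : ∑ l : Cy r →* ℂˣ, (l a : ℂ) = (l₀ a : ℂ) * ∑ l : Cy r →* ℂˣ, (l a : ℂ) := by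
    rw [Finset.mul_sum]
    rw [← Equiv.sum_comp (Equiv.mulLeft l₀) (fun l : Cy r →* ℂˣ => (l a : ℂ))]
    refine Finset.sum_congr rfl fun l _ => ?_
    show (((l₀ * l) a : ℂˣ) : ℂ) = _
    rw [MonoidHom.mul_apply, Units.val_mul]
  have h2 : (1 - (l₀ a : ℂ)) * ∑ l : Cy r →* ℂˣ, (l a : ℂ) = 0 := by
    rw [sub_mul, one_mul, ← h1, sub_self]
  rcases mul_eq_zero.1 h2 with h | h
  · exact absurd (Units.ext (sub_eq_zero.1 h).symm) hl₀
  · exact h

end lin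

section B

variable {G : Type} [Group G] [Fintype G] {r : ℕ} [Fact r.Prime]

/-- the wreath product is finite -/
@[instance_reducible]
def fW : Fintype (Wc G r) :=
  Fintype.ofEquiv ((Cy r → G) × Cy r) (SemidirectProduct.equivProd).symm

attribute [local instance] fL fW

theorem sum_W (F : Wc G r → ℂ) :
    ∑ x : Wc G r, F x = ∑ a : Cy r, ∑ m : Cy r → G, F ⟨m, a⟩ := by
  rw [← Equiv.sum_comp (SemidirectProduct.equivProd (N := Cy r → G) (G := Cy r)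
    (φ := mulAutArrow)).symm F, Fintype.sum_prod_type_right]
  rfl

theorem card_W : (Nat.card (Wc G r) : ℂ) = (r : ℂ) * (Nat.card (Cy r → G) : ℂ) := by
  have h : Nat.card (Wc G r) = Nat.card ((Cy r → G) × Cy r) :=
    Nat.card_congr SemidirectProduct.equivProd
  have hc : Nat.card (Cy r) = r := by
    rw [Nat.card_eq_fintype_card, fc_Cy]
  rw [h, Nat.card_prod, hc, Nat.cast_mul, mul_comm]

theorem B_W (F H : Wc G r → ℂ) : IC.B F H = (r : ℂ)⁻¹ * ∑ a : Cy r,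
    (Nat.card (Cy r → G) : ℂ)⁻¹ * ∑ m : Cy r → G, F ⟨m, a⟩ * H (⟨m, a⟩ : Wc G r)⁻¹ := by
  unfold IC.B
  rw [sum_W (fun x => F x * H x⁻¹), card_W, ← Finset.mul_sum, ← mul_assoc, mul_inv]

theorem B_base (F H : Wc G r → ℂ) (hF : ∀ x : Wc G r, x.right ≠ 1 → F x = 0) :
    IC.B F H = (r : ℂ)⁻¹ * IC.B (fun m : Cy r → G => F ⟨m, 1⟩)
      (fun m : Cy r → G => H ⟨m, 1⟩) := by
  rw [B_W, Finset.sum_eq_single (1 : Cy r)]
  · unfold IC.B
    congr 2
    refine Finset.sum_congr rfl fun m _ => ?_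
    have h : (⟨m, 1⟩ : Wc G r)⁻¹ = ⟨m⁻¹, 1⟩ :=
      (map_inv (SemidirectProduct.inl : (Cy r → G) →* Wc G r) m).symm
    rw [h]
  · intro b _ hb
    rw [Finset.sum_eq_zero, mul_zero]
    intro m _
    rw [hF ⟨m, b⟩ hb, zero_mul]
  · intro h
    exact absurd (Finset.mem_univ _) h

/-- the shifted family -/
def shf (f : Cy r → G → ℂ) (a : Cy r) : Cy r → G → ℂ := fun ω => f (a * ω)

omit [Fintype G] in
theorem nch_base (f : Cy r → G → ℂ) (m : Cy r → G) :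
    nch f (⟨m, 1⟩ : Wc G r) = ∑ a : Cy r, prf (shf f a) m := by
  unfold nch
  rw [if_pos rfl]
  rfl

omit [Fintype G] in
theorem nch_off (f : Cy r → G → ℂ) (x : Wc G r) (hx : x.right ≠ 1) : nch f x = 0 := by
  unfold nch
  rw [if_neg hx]

omit [Fintype G] in
theorem prf_shf (f : Cy r → G → ℂ) (a : Cy r) (m : Cy r → G) :
    prf (shf f a) m = prf f (fun ω => m (a⁻¹ * ω)) := by
  unfold prf shf
  rw [← Equiv.prod_comp (Equiv.mulLeft a) (fun ω => f ω (m (a⁻¹ * ω)))]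
  refine Finset.prod_congr rfl fun ω _ => ?_
  rw [Equiv.coe_mulLeft, inv_mul_cancel_left]

theorem B_shf (f : Cy r → G → ℂ) (a : Cy r) (H : Wc G r → ℂ)
    (hH : ∀ x y : Wc G r, H (y * x * y⁻¹) = H x) :
    IC.B (prf (shf f a)) (fun m : Cy r → G => H ⟨m, 1⟩) =
      IC.B (prf f) (fun m : Cy r → G => H ⟨m, 1⟩) := by
  unfold IC.B
  congr 1
  have h1 : ∀ m : Cy r → G, prf (shf f a) m * H ⟨m⁻¹, 1⟩ =
      (fun m : Cy r → G => prf f m * H ⟨m⁻¹, 1⟩) (fun ω => m (a⁻¹ * ω)) := by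
    intro m
    have h2 : (⟨(fun ω => m (a⁻¹ * ω))⁻¹, 1⟩ : Wc G r) =
        ⟨1, a⟩ * ⟨m⁻¹, 1⟩ * (⟨1, a⟩ : Wc G r)⁻¹ := by
      apply SemidirectProduct.ext
      · funext ω
        rw [cj_lf]
        show (m (a⁻¹ * ω))⁻¹ = 1 * (m (a⁻¹ * ω))⁻¹ * 1⁻¹
        rw [one_mul, inv_one, mul_one]
      · rw [cj_rt]
    show _ = prf f (fun ω => m (a⁻¹ * ω)) * H ⟨(fun ω => m (a⁻¹ * ω))⁻¹, 1⟩
    rw [h2, hH, prf_shf]
  rw [Finset.sum_congr rfl fun m _ => h1 m]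
  exact Equiv.sum_comp ((Equiv.mulLeft a).arrowCongr (Equiv.refl G))
    (fun m : Cy r → G => prf f m * H ⟨m⁻¹, 1⟩)

/-- Frobenius reciprocity -/
theorem frob (f : Cy r → G → ℂ) (H : Wc G r → ℂ)
    (hH : ∀ x y : Wc G r, H (y * x * y⁻¹) = H x) :
    IC.B (nch f) H = IC.B (prf f) (fun m : Cy r → G => H ⟨m, 1⟩) := by
  have hr0 : (r : ℂ) ≠ 0 := Nat.cast_ne_zero.2 (Fact.out : r.Prime).ne_zero
  rw [B_base (nch f) H (nch_off f)]
  have h1 : (fun m : Cy r → G => nch f (⟨m, 1⟩ : Wc G r)) = ∑ a : Cy r, prf (shf f a) := by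
    funext m
    rw [nch_base, Finset.sum_apply]
  rw [h1, IC.B_sum_left, Finset.sum_congr rfl fun a _ => B_shf f a H hH, Finset.sum_const,
    Finset.card_univ, fc_Cy, nsmul_eq_mul, ← mul_assoc, inv_mul_cancel₀ hr0, one_mul]

omit [Fintype G] in
theorem nch_cl (f : Cy r → G → ℂ) (hf : ∀ ω, IsIrr (f ω)) (x y : Wc G r) :
    nch f (y * x * y⁻¹) = nch f x := by
  unfold nch
  rw [cj_rt]
  by_cases hx : x.right = 1
  · rw [if_pos hx, if_pos hx]
    have h1 : ∀ a : Cy r, prf (fun ω => f (a * ω)) (y * x * y⁻¹).left =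
        (fun b => prf (fun ω => f (b * ω)) x.left) (a * y.right) := by
      intro a
      show ∏ ω, f (a * ω) ((y * x * y⁻¹).left ω) = ∏ ω, f (a * y.right * ω) (x.left ω)
      rw [← Equiv.prod_comp (Equiv.mulLeft y.right)
        (fun ω => f (a * ω) ((y * x * y⁻¹).left ω))]
      refine Finset.prod_congr rfl fun ω _ => ?_
      rw [Equiv.coe_mulLeft, cj_lf, hx, inv_one, one_mul, (hf _).conj, inv_mul_cancel_left,
        mul_assoc]
    rw [Finset.sum_congr rfl fun a _ => h1 a]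
    exact Equiv.sum_comp (Equiv.mulRight y.right) (fun b => prf (fun ω => f (b * ω)) x.left)
  · rw [if_neg hx, if_neg hx]

omit [Fintype G] in
theorem shf_inj (f : Cy r → G → ℂ) (hn : Ncn f) (a : Cy r) (h : f = shf f a) : a = 1 := by
  by_contra ha
  have h1 : ∀ k : ℕ, f (a ^ k) = f 1 := by
    intro k
    induction k with
    | zero => rw [pow_zero]
    | succ k ih =>
      rw [pow_succ']
      have h2 : f (a ^ k) = f (a * a ^ k) := congrFun h (a ^ k)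
      rw [← h2, ih]
  obtain ⟨ω, ω', hne⟩ := hn
  apply hne
  obtain ⟨k, hk⟩ := (pw_bij a ha).2 ω
  obtain ⟨l, hl⟩ := (pw_bij a ha).2 ω'
  rw [← hk, ← hl]
  exact (h1 _).trans (h1 _).symm

omit [Fintype G] in
theorem shf_irr {f : Cy r → G → ℂ} (hf : ∀ ω, IsIrr (f ω)) (a : Cy r) :
    ∀ ω, IsIrr (shf f a ω) := fun ω => hf _

theorem B_pp (hZ : S_ZPR) (f f' : Cy r → G → ℂ) (hf : ∀ ω, IsIrr (f ω))
    (hf' : ∀ ω, IsIrr (f' ω)) : IC.B (prf f) (prf f') = if f = f' then 1 else 0 := by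
  obtain ⟨ha, -, hc⟩ := hZ G (Cy r)
  have h := IC.B_irr (chi := prf f) (psi := prf f') (ha f hf) (ha f' hf')
  rw [h]
  by_cases hff : f = f'
  · rw [if_pos hff, if_pos (congrArg prf hff)]
  · rw [if_neg hff, if_neg fun hp => hff (hc f f' hf hf' hp)]

theorem B_nch_base (hZ : S_ZPR) (f f' : Cy r → G → ℂ) (hf : ∀ ω, IsIrr (f ω))
    (hf' : ∀ ω, IsIrr (f' ω)) : IC.B (prf f') (fun m : Cy r → G => nch f (⟨m, 1⟩ : Wc G r)) =
      ∑ a : Cy r, if shf f a = f' then 1 else 0 := by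
  have h1 : (fun m : Cy r → G => nch f (⟨m, 1⟩ : Wc G r)) = ∑ a : Cy r, prf (shf f a) := by
    funext m
    rw [nch_base, Finset.sum_apply]
  rw [IC.B_comm, h1, IC.B_sum_left]
  exact Finset.sum_congr rfl fun a _ => B_pp hZ _ _ (shf_irr hf a) hf'

theorem nch_norm (hZ : S_ZPR) (f : Cy r → G → ℂ) (hf : ∀ ω, IsIrr (f ω)) (hn : Ncn f) :
    IC.B (nch f) (nch f) = 1 := by
  rw [frob f _ (nch_cl f hf), B_nch_base hZ f f hf hf, Finset.sum_eq_single 1]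
  · rw [if_pos]
    funext ω
    unfold shf
    rw [one_mul]
  · intro b _ hb
    rw [if_neg fun h => hb (shf_inj f hn b h.symm)]
  · intro h
    exact absurd (Finset.mem_univ _) h

/-- the restriction to the base group has natural multiplicities -/
theorem mult_base (hZ : S_ZPR) (f : Cy r → G → ℂ) (hf : ∀ ω, IsIrr (f ω)) (χ : Wc G r → ℂ)
    (hχ : IsIrr χ) : ∃ n : ℕ, IC.B (prf f) (fun m : Cy r → G => χ ⟨m, 1⟩) = n := by
  obtain ⟨V, _, _, _, ρ, -, rfl⟩ := hχ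
  obtain ⟨U, _, _, _, σ, -, hσ⟩ := (hZ G (Cy r)).1 f hf
  let τ : Representation ℂ (Cy r → G) V :=
    ρ.comp (SemidirectProduct.inl : (Cy r → G) →* Wc G r)
  let S : Submodule ℂ (V →ₗ[ℂ] U) :=
    { carrier := {v | ∀ x : Cy r → G, σ x ∘ₗ v = v ∘ₗ τ x}
      add_mem' := by
        intro a b ha hb k
        rw [LinearMap.comp_add, ha k, hb k, LinearMap.add_comp]
      zero_mem' := by
        intro k
        rw [LinearMap.comp_zero, LinearMap.zero_comp]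
      smul_mem' := by
        intro c a ha k
        rw [LinearMap.comp_smul, ha k, LinearMap.smul_comp] }
  have h := t_HOM (Cy r → G) U V σ τ S (fun v => Iff.rfl)
  refine ⟨Module.finrank ℂ S, ?_⟩
  rw [h, hσ]
  rfl

/-- part (1) -/
theorem cls1 (hZ : S_ZPR) (f : Cy r → G → ℂ) (hf : ∀ ω, IsIrr (f ω)) (hn : Ncn f) :
    IsIrr (nch f) := by
  have hcl : IC.IsClass (nch f) := fun x y => nch_cl f hf x y
  have h1 : ∀ χ : Wc G r → ℂ, IsIrr χ → ∃ n : ℕ, IC.B (nch f) χ = n := by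
    intro χ hχ
    obtain ⟨n, hn⟩ := mult_base hZ f hf χ hχ
    refine ⟨n, ?_⟩
    rw [frob f χ (fun x y => hχ.conj x y), hn]
  let N : (Wc G r → ℂ) → ℕ := fun χ => if h : IsIrr χ then (h1 χ h).choose else 0
  have hN : ∀ χ : Wc G r → ℂ, IsIrr χ → IC.B (nch f) χ = N χ := by
    intro χ hχ
    have h2 : N χ = (h1 χ hχ).choose := by
      show (if h : IsIrr χ then (h1 χ h).choose else 0) = _
      rw [dif_pos hχ]
    rw [h2]
    exact (h1 χ hχ).choose_spec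
  have h2 : ∑ χ ∈ IC.Irr (Wc G r), N χ ^ 2 = 1 := by
    have h3 := IC.B_expand (nch f) (nch f) hcl
    rw [nch_norm hZ f hf hn] at h3
    have h4 : (1 : ℂ) = ((∑ χ ∈ IC.Irr (Wc G r), N χ ^ 2 : ℕ) : ℂ) := by
      rw [h3, Nat.cast_sum]
      refine Finset.sum_congr rfl fun χ hχ => ?_
      have hχ' : IsIrr χ := IC.mem_Irr.1 hχ
      rw [IC.B_comm χ (nch f), hN χ hχ', Nat.cast_pow, sq]
    exact_mod_cast h4.symm
  obtain ⟨χ₀, hχ₀, hne⟩ : ∃ χ₀ ∈ IC.Irr (Wc G r), N χ₀ ≠ 0 := by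
    by_contra hcon
    push Not at hcon
    rw [Finset.sum_eq_zero fun χ hχ => by rw [hcon χ hχ]; rfl] at h2
    exact absurd h2 (by norm_num)
  have h5 := Finset.add_sum_erase (IC.Irr (Wc G r)) (fun χ => N χ ^ 2) hχ₀
  rw [h2] at h5
  have h6 : 1 ≤ N χ₀ ^ 2 := Nat.one_le_iff_ne_zero.2 (pow_ne_zero 2 hne)
  have h7 : ∑ χ ∈ (IC.Irr (Wc G r)).erase χ₀, N χ ^ 2 = 0 := by
    have : (fun χ => N χ ^ 2) χ₀ + ∑ χ ∈ (IC.Irr (Wc G r)).erase χ₀, N χ ^ 2 = 1 := h5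
    have h8 : (fun χ => N χ ^ 2) χ₀ = N χ₀ ^ 2 := rfl
    omega
  have h8 : N χ₀ ^ 2 = 1 := by
    have : (fun χ => N χ ^ 2) χ₀ + ∑ χ ∈ (IC.Irr (Wc G r)).erase χ₀, N χ ^ 2 = 1 := h5
    have h9 : (fun χ => N χ ^ 2) χ₀ = N χ₀ ^ 2 := rfl
    omega
  have h9 : N χ₀ = 1 := by
    rwa [Nat.pow_eq_one, or_iff_left (by norm_num)] at h8
  have hχ₀' : IsIrr χ₀ := IC.mem_Irr.1 hχ₀
  have h10 : nch f = χ₀ := by
    rw [IC.expand (nch f) hcl, Finset.sum_eq_single χ₀]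
    · rw [hN χ₀ hχ₀', h9, Nat.cast_one, one_smul]
    · intro χ hχ hne'
      have h11 := (Finset.sum_eq_zero_iff.1 h7) χ (Finset.mem_erase.2 ⟨hne', hχ⟩)
      have h12 : N χ = 0 := (pow_eq_zero_iff (two_ne_zero)).1 h11
      rw [hN χ (IC.mem_Irr.1 hχ), h12, Nat.cast_zero, zero_smul]
    · intro h
      exact absurd hχ₀ h
  rw [h10]
  exact hχ₀'

omit [Fintype G] in
theorem cch_base (θ : G → ℂ) (l : Cy r →* ℂˣ) (m : Cy r → G) :
    cch θ l (⟨m, 1⟩ : Wc G r) = prf (fun _ => θ) m := by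
  unfold cch
  rw [if_pos rfl]
  rfl

omit [Fintype G] in
theorem cch_off (θ : G → ℂ) (l : Cy r →* ℂˣ) (x : Wc G r) (hx : x.right ≠ 1) :
    cch θ l x = (l x.right : ℂ) * θ ((x ^ r).left 1) := by
  unfold cch
  rw [if_neg hx]

theorem cch_norm (hZ : S_ZPR) (θ : G → ℂ) (hθ : IsIrr θ) :
    IC.B (cch θ (1 : Cy r →* ℂˣ)) (cch θ (1 : Cy r →* ℂˣ)) = 1 := by
  have hr0 : (r : ℂ) ≠ 0 := Nat.cast_ne_zero.2 (Fact.out : r.Prime).ne_zero
  have hG : (Nat.card G : ℂ) ≠ 0 := Nat.cast_ne_zero.2 Nat.card_pos.ne'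
  have hB : IC.B θ θ = 1 := by
    have := IC.B_irr (chi := θ) (psi := θ) hθ hθ
    rwa [if_pos rfl] at this
  have hS : ∑ g : G, θ g * θ g⁻¹ = (Nat.card G : ℂ) := by
    unfold IC.B at hB
    rwa [inv_mul_eq_one₀ hG, eq_comm] at hB
  rw [B_W]
  have key : ∀ a : Cy r, (Nat.card (Cy r → G) : ℂ)⁻¹ * ∑ m : Cy r → G,
      cch θ (1 : Cy r →* ℂˣ) ⟨m, a⟩ * cch θ (1 : Cy r →* ℂˣ) (⟨m, a⟩ : Wc G r)⁻¹ = 1 := by
    intro a
    by_cases ha : a = 1
    · subst ha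
      have h1 : IC.B (prf (fun _ : Cy r => θ)) (prf (fun _ : Cy r => θ)) = 1 := by
        rw [B_pp hZ _ _ (fun _ => hθ) (fun _ => hθ), if_pos rfl]
      rw [← h1]
      unfold IC.B
      congr 1
      refine Finset.sum_congr rfl fun m _ => ?_
      have h : (⟨m, 1⟩ : Wc G r)⁻¹ = ⟨m⁻¹, 1⟩ :=
        (map_inv (SemidirectProduct.inl : (Cy r → G) →* Wc G r) m).symm
      rw [h, cch_base, cch_base]
    · have h1 : ∀ m : Cy r → G, cch θ (1 : Cy r →* ℂˣ) ⟨m, a⟩ *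
          cch θ (1 : Cy r →* ℂˣ) (⟨m, a⟩ : Wc G r)⁻¹ =
          (fun g => θ g * θ g⁻¹) (Pm r a m) := by
        intro m
        have h2 : ((⟨m, a⟩ : Wc G r)⁻¹).right ≠ 1 := by
          show a⁻¹ ≠ 1
          rwa [Ne, inv_eq_one]
        rw [cch_off θ 1 ⟨m, a⟩ ha, cch_off θ 1 _ h2, inv_pow, inv_lf, pow_rt, pw_r, one_mul,
          MonoidHom.one_apply, MonoidHom.one_apply, Units.val_one, one_mul, one_mul]
        rfl
      rw [Finset.sum_congr rfl fun m _ => h1 m, sum_Pm (G := G) a ha (fun g => θ g * θ g⁻¹), hS,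
        ← pow_succ, Nat.sub_add_cancel (Fact.out : r.Prime).pos, Nat.card_fun,
        Nat.card_eq_fintype_card (α := Cy r), fc_Cy, Nat.cast_pow]
      exact inv_mul_cancel₀ (pow_ne_zero r hG)
  rw [Finset.sum_congr rfl fun a _ => key a, Finset.sum_const, Finset.card_univ, fc_Cy,
    nsmul_eq_mul, mul_one, inv_mul_cancel₀ hr0]

/-- part (2) -/
theorem cls2 (hT : S_TRC) (hZ : S_ZPR) (θ : G → ℂ) (hθ : IsIrr θ) (l : Cy r →* ℂˣ) :
    IsIrr (cch θ l) := by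
  obtain ⟨V, _, _, _, ρ, hρ⟩ := hT G r θ hθ
  have h1 : IC.B ρ.character ρ.character = 1 := by
    rw [hρ]
    exact cch_norm hZ θ hθ
  have h2 := t_IRN t_HOM (Wc G r) V ρ h1
  rw [hρ] at h2
  have h3 := Pool.Agent.Y62.irr_twist h2 (l.comp (SemidirectProduct.rightHom : Wc G r →* Cy r))
  have h4 : (fun g : Wc G r => (((l.comp (SemidirectProduct.rightHom : Wc G r →* Cy r)) g : ℂˣ) :
      ℂ) * cch θ (1 : Cy r →* ℂˣ) g) = cch θ l := by
    funext x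
    show (l x.right : ℂ) * cch θ (1 : Cy r →* ℂˣ) x = cch θ l x
    by_cases hx : x.right = 1
    · have e1 : cch θ (1 : Cy r →* ℂˣ) x = ∏ ω, θ (x.left ω) := by
        unfold cch
        rw [if_pos hx]
      have e2 : cch θ l x = ∏ ω, θ (x.left ω) := by
        unfold cch
        rw [if_pos hx]
      rw [e1, e2, hx, map_one, Units.val_one, one_mul]
    · rw [cch_off θ 1 x hx, cch_off θ l x hx, MonoidHom.one_apply, Units.val_one, one_mul]
  rwa [h4] at h3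

omit [Fintype G] in
theorem nch_const (θ : G → ℂ) :
    nch (fun _ : Cy r => θ) = ∑ l : Cy r →* ℂˣ, cch (G := G) θ l := by
  funext x
  rw [Finset.sum_apply]
  by_cases hx : x.right = 1
  · have e2 : ∀ l : Cy r →* ℂˣ, cch θ l x = ∏ ω, θ (x.left ω) := by
      intro l
      unfold cch
      rw [if_pos hx]
    have e1 : nch (fun _ : Cy r => θ) x = ∑ _a : Cy r, ∏ ω, θ (x.left ω) := by
      unfold nch
      rw [if_pos hx]
      rfl
    rw [e1, Finset.sum_congr rfl fun l _ => e2 l, Finset.sum_const, Finset.sum_const,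
      Finset.card_univ, Finset.card_univ, fc_Cy, lc_card]
  · rw [nch_off _ x hx, Finset.sum_congr rfl fun l _ => cch_off θ l x hx, ← Finset.sum_mul,
      lc_sum _ hx, zero_mul]

/-- part (3) -/
theorem cls3 (hT : S_TRC) (hZ : S_ZPR) (χ : Wc G r → ℂ) (hχ : IsIrr χ) :
    χ ∈ LX (r := r) {θ : G → ℂ | IsIrr θ} := by
  have hcl : IC.IsClass (fun m : Cy r → G => χ ⟨m, 1⟩) := by
    intro g y
    have h : (⟨y * g * y⁻¹, 1⟩ : Wc G r) = ⟨y, 1⟩ * ⟨g, 1⟩ * (⟨y, 1⟩ : Wc G r)⁻¹ := by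
      apply SemidirectProduct.ext
      · funext ω
        rw [cj_lf]
        show y ω * g ω * (y ω)⁻¹ = y ω * g ((1 : Cy r)⁻¹ * ω) * (y ((1 : Cy r)⁻¹ * ω))⁻¹
        rw [inv_one, one_mul]
      · rw [cj_rt]
    show χ ⟨y * g * y⁻¹, 1⟩ = χ ⟨g, 1⟩
    rw [h]
    exact hχ.conj _ _
  obtain ⟨ψ, hψ, hne⟩ : ∃ ψ : (Cy r → G) → ℂ, IsIrr ψ ∧
      IC.B ψ (fun m : Cy r → G => χ ⟨m, 1⟩) ≠ 0 := by
    by_contra hcon
    push Not at hcon
    have h1 := congrFun (IC.expand _ hcl) 1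
    rw [Finset.sum_eq_zero fun ψ hψ => by
      rw [IC.B_comm, hcon ψ (IC.mem_Irr.1 hψ), zero_smul]] at h1
    exact hχ.one_ne h1
  obtain ⟨f, hf, rfl⟩ := (hZ G (Cy r)).2.1 ψ hψ
  have h2 : IC.B (nch f) χ ≠ 0 := by
    rw [frob f χ (fun x y => hχ.conj x y)]
    exact hne
  by_cases hn : Ncn f
  · left
    refine ⟨f, hf, hn, ?_⟩
    have h3 := IC.B_irr (chi := nch f) (psi := χ) (cls1 hZ f hf hn) hχ
    by_contra hcon
    rw [if_neg fun h => hcon h.symm] at h3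
    exact h2 h3
  · right
    have h3 : f = fun _ => f 1 := by
      funext ω
      by_contra hc
      exact hn ⟨ω, 1, hc⟩
    refine ⟨f 1, hf 1, ?_⟩
    rw [h3, nch_const, IC.B_sum_left] at h2
    obtain ⟨l, -, hl⟩ := Finset.exists_ne_zero_of_sum_ne_zero h2
    refine ⟨l, ?_⟩
    have h4 := IC.B_irr (chi := cch (f 1) l) (psi := χ) (cls2 hT hZ (f 1) (hf 1) l) hχ
    by_contra hcon
    rw [if_neg fun h => hcon h.symm] at h4
    exact hl h4

/-- part (4) -/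
theorem cls4 (hZ : S_ZPR) (f f' : Cy r → G → ℂ) (hf : ∀ ω, IsIrr (f ω))
    (hf' : ∀ ω, IsIrr (f' ω)) (h : nch f = nch f') :
    ∃ a : Cy r, f' = fun ω => f (a * ω) := by
  by_contra hcon
  have h1 := B_nch_base hZ f f' hf hf'
  have h2 := B_nch_base hZ f' f' hf' hf'
  rw [h, h2] at h1
  have h3 : ∑ a : Cy r, (if shf f a = f' then (1 : ℂ) else 0) = 0 := by
    refine Finset.sum_eq_zero fun a _ => ?_
    rw [if_neg]
    intro hc
    exact hcon ⟨a, hc.symm⟩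
  rw [h3] at h1
  have h4 : ∑ a : Cy r, (if shf f' a = f' then (1 : ℂ) else 0) =
      ((∑ a : Cy r, (if shf f' a = f' then 1 else 0) : ℕ) : ℂ) := by
    push_cast
    rfl
  rw [h4, Nat.cast_eq_zero, Finset.sum_eq_zero_iff] at h1
  have h5 := h1 1 (Finset.mem_univ _)
  rw [if_pos] at h5
  · exact one_ne_zero h5
  · funext ω
    unfold shf
    rw [one_mul]

omit [Fintype G] in
theorem inr_pow (a : Cy r) : ((⟨1, a⟩ : Wc G r) ^ r).left 1 = 1 := by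
  have h : (⟨1, a⟩ : Wc G r) ^ r = SemidirectProduct.inr (a ^ r) :=
    (map_pow (SemidirectProduct.inr : Cy r →* Wc G r) a r).symm
  rw [h]
  rfl

omit [Fintype G] in
theorem exists_ne_one_Cy : ∃ a : Cy r, a ≠ 1 := by
  have h : 1 < Fintype.card (Cy r) := by
    rw [fc_Cy]
    exact (Fact.out : r.Prime).one_lt
  have := Fintype.one_lt_card_iff_nontrivial.1 h
  exact exists_ne 1

/-- part (5) -/
theorem cls5 (hZ : S_ZPR) (θ θ' : G → ℂ) (l l' : Cy r →* ℂˣ) (hθ : IsIrr θ) (hθ' : IsIrr θ')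
    (h : cch θ l = cch θ' l') : θ = θ' ∧ l = l' := by
  have h1 : prf (fun _ : Cy r => θ) = prf (fun _ : Cy r => θ') := by
    funext m
    rw [← cch_base θ l m, ← cch_base θ' l' m, h]
  have h2 : θ = θ' := congrFun ((hZ G (Cy r)).2.2 _ _ (fun _ => hθ) (fun _ => hθ') h1) 1
  refine ⟨h2, ?_⟩
  subst h2
  refine MonoidHom.ext fun a => Units.ext ?_
  by_cases ha : a = 1
  · rw [ha, map_one, map_one]
  · have h3 := congrFun h (⟨1, a⟩ : Wc G r)
    rw [cch_off θ l ⟨1, a⟩ ha, cch_off θ l' ⟨1, a⟩ ha, inr_pow] at h3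
    exact mul_right_cancel₀ hθ.one_ne h3

omit [Fintype G] in
/-- part (6) -/
theorem cls6 (f : Cy r → G → ℂ) (θ : G → ℂ) (l : Cy r →* ℂˣ) (hθ : IsIrr θ) :
    nch f ≠ cch θ l := by
  intro h
  obtain ⟨a, ha⟩ := exists_ne_one_Cy (r := r)
  have h3 := congrFun h (⟨1, a⟩ : Wc G r)
  rw [nch_off f ⟨1, a⟩ ha, cch_off θ l ⟨1, a⟩ ha, inr_pow] at h3
  exact mul_ne_zero (Units.ne_zero (l a)) hθ.one_ne h3.symm

end B

/-- JOB CLS -/
theorem t_CLS : S_TRC → S_ZPR → S_CLS := by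
  intro hT hZ G _ _ r _
  exact ⟨fun f hf hn => cls1 hZ f hf hn, fun θ hθ l => cls2 hT hZ θ hθ l,
    fun χ hχ => cls3 hT hZ χ hχ, fun f f' hf hf' _ h => cls4 hZ f f' hf hf' h,
    fun θ θ' l l' hθ hθ' h => cls5 hZ θ θ' l l' hθ hθ' h,
    fun f θ l _ _ hθ => cls6 f θ l hθ⟩

end Pool.Agent.Q162.AM
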