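import Pool.Agent.Q17.AM.Stm

/-!
# The tensor induced representation of a wreath product with a cyclic group of prime order
-/

set_option autoImplicit false

open scoped Classical

noncomputable section

namespace Pool.Agent.Q162.AM

open Pool.Agent.H254R3.IN
open Pool.Agent.Q17.WR Pool.Agent.Q17.AM

/-- products of the first matrices of a sequence -/
def Pn {d : ℕ} (f : ℕ → Matrix (Fin d) (Fin d) ℂ) : ℕ → Matrix (Fin d) (Fin d) ℂ
  | 0 => 1
  | n + 1 => Pn f n * f n

theorem path {d : ℕ} (f : ℕ → Matrix (Fin d) (Fin d) ℂ) (n : ℕ) :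
    ∀ F : Fin d → Fin d → ℂ,
    ∑ p : Fin (n + 1) → Fin d, (∏ k : Fin n, f k (p k.castSucc) (p k.succ)) *
      F (p 0) (p (Fin.last n)) = ∑ i, ∑ j, Pn f n i j * F i j := by
  induction n with
  | zero =>
    intro F
    rw [← (Equiv.funUnique (Fin 1) (Fin d)).symm.sum_comp]
    simp [Pn, Matrix.one_apply]
  | succ n ih =>
    intro F
    rw [← (Fin.snocEquiv (fun _ => Fin d)).sum_comp, Fintype.sum_prod_type, Finset.sum_comm]
    have h1 : ∀ p : Fin (n + 1) → Fin d, ∑ s : Fin d,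
        (∏ k : Fin (n + 1), f k ((Fin.snocEquiv (fun _ => Fin d)) (s, p) k.castSucc)
          ((Fin.snocEquiv (fun _ => Fin d)) (s, p) k.succ)) *
          F ((Fin.snocEquiv (fun _ => Fin d)) (s, p) 0)
            ((Fin.snocEquiv (fun _ => Fin d)) (s, p) (Fin.last (n + 1))) =
        (∏ k : Fin n, f k (p k.castSucc) (p k.succ)) *
          (fun i j => ∑ s, f n j s * F i s) (p 0) (p (Fin.last n)) := by
      intro p
      rw [Finset.mul_sum]
      refine Finset.sum_congr rfl fun s _ => ?_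
      have e0 : ∀ k : Fin (n + 1), (Fin.snocEquiv (fun _ => Fin d)) (s, p) k.castSucc = p k := by
        intro k
        simp [Fin.snocEquiv]
      have e1 : (Fin.snocEquiv (fun _ => Fin d)) (s, p) (Fin.last (n + 1)) = s := by
        simp [Fin.snocEquiv]
      have e2 : (Fin.snocEquiv (fun _ => Fin d)) (s, p) 0 = p 0 := e0 0
      rw [e1, e2, Fin.prod_univ_castSucc]
      have e3 : (Fin.last n).succ = Fin.last (n + 1) := Fin.succ_last n
      rw [e3, e1, e0]
      have e4 : ∀ k : Fin n, f (k.castSucc : Fin (n + 1)) ((Fin.snocEquiv (fun _ => Fin d)) (s, p) k.castSucc.castSucc)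
          ((Fin.snocEquiv (fun _ => Fin d)) (s, p) k.castSucc.succ) =
          f k (p k.castSucc) (p k.succ) := by
        intro k
        have e5 : k.castSucc.succ = k.succ.castSucc := Fin.succ_castSucc k
        rw [e5, e0, e0]
        rfl
      rw [Finset.prod_congr rfl fun k _ => e4 k]
      simp only [Fin.val_last]
      ring
    rw [Finset.sum_congr rfl fun p _ => h1 p]
    refine (ih (fun i j => ∑ s, f n j s * F i s)).trans ?_
    simp only [Pn, Matrix.mul_apply, Finset.mul_sum, Finset.sum_mul]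
    refine Finset.sum_congr rfl fun i _ => ?_
    rw [Finset.sum_comm]
    refine Finset.sum_congr rfl fun j _ => Finset.sum_congr rfl fun s _ => ?_
    ring

theorem cyc {d : ℕ} (f : ℕ → Matrix (Fin d) (Fin d) ℂ) (n : ℕ) :
    ∑ p : Fin (n + 1) → Fin d, ∏ k : Fin (n + 1), f k (p k) (p (k + 1)) =
      (Pn f (n + 1)).trace := by
  have h := path f n (fun i j => f n j i)
  have h1 : (Pn f (n + 1)).trace = ∑ i, ∑ j, Pn f n i j * f n j i := by
    simp only [Pn, Matrix.trace, Matrix.diag, Matrix.mul_apply]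
  rw [h1, ← h]
  refine Finset.sum_congr rfl fun p _ => ?_
  rw [Fin.prod_univ_castSucc, Fin.last_add_one]
  simp only [Fin.val_last, Fin.val_castSucc, Fin.coeSucc_eq_succ]

variable {G : Type} [Group G] {r : ℕ}

theorem pow_succ_left (x : Wc G r) (n : ℕ) (ω : Cy r) :
    (x ^ (n + 1)).left ω = (x ^ n).left ω * x.left ((x.right⁻¹) ^ n * ω) := by
  rw [pow_succ, SemidirectProduct.mul_left]
  show (x ^ n).left ω * x.left (((x ^ n).right)⁻¹ • ω) = _
  have : (x ^ n).right = x.right ^ n := map_pow (SemidirectProduct.rightHom : Wc G r →* Cy r) x n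
  rw [this, inv_pow]
  rfl

theorem Pn_eq {d : ℕ} (M : G → Matrix (Fin d) (Fin d) ℂ) (h1 : M 1 = 1)
    (hm : ∀ g h, M (g * h) = M g * M h) (x : Wc G r) (n : ℕ) :
    Pn (fun k => M (x.left ((x.right⁻¹) ^ k))) n = M ((x ^ n).left 1) := by
  induction n with
  | zero =>
    rw [pow_zero]
    show (1 : Matrix (Fin d) (Fin d) ℂ) = M 1
    rw [h1]
  | succ n ih =>
    rw [pow_succ_left, hm, ← ih, mul_one]
    rfl

variable [Fact r.Prime]

theorem fc_Cy : Fintype.card (Cy r) = r := by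
  rw [Fintype.card_multiplicative, ZMod.card]

/-- the powers of a nontrivial element -/
theorem pw_bij (a : Cy r) (ha : a ≠ 1) :
    Function.Bijective (fun k : Fin r => a ^ (k : ℕ)) := by
  have hc : Nat.card (Cy r) = r := by
    rw [Nat.card_eq_fintype_card, fc_Cy]
  have ho : orderOf a = r := by
    have h2 : orderOf a ∣ r := by
      have := orderOf_dvd_natCard a
      rwa [hc] at this
    rcases (Nat.dvd_prime (Fact.out : r.Prime)).1 h2 with h | h
    · exact absurd (orderOf_eq_one_iff.1 h) ha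
    · exact h
  rw [Fintype.bijective_iff_injective_and_card]
  constructor
  · intro k l hkl
    have := pow_injOn_Iio_orderOf (x := a) (by rw [ho]; exact k.2) (by rw [ho]; exact l.2) hkl
    exact Fin.ext this
  · rw [Fintype.card_fin, ← Nat.card_eq_fintype_card, hc]

theorem pw_r (a : Cy r) : a ^ r = 1 := by
  have hc : Nat.card (Cy r) = r := by
    rw [Nat.card_eq_fintype_card, fc_Cy]
  have := pow_card_eq_one' (x := a)
  rwa [hc] at this

/-- the matrix of an element -/
def Tm {d : ℕ} (M : G → Matrix (Fin d) (Fin d) ℂ) (x : Wc G r) :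
    Matrix (Cy r → Fin d) (Cy r → Fin d) ℂ :=
  fun i j => ∏ ω, M (x.left ω) (i ω) (j (x.right⁻¹ * ω))

theorem Tm_one {d : ℕ} (M : G → Matrix (Fin d) (Fin d) ℂ) (h1 : M 1 = 1) :
    Tm (r := r) M 1 = 1 := by
  ext i j
  have : Tm (r := r) M 1 i j = ∏ ω, (1 : Matrix (Fin d) (Fin d) ℂ) (i ω) (j ω) := by
    unfold Tm
    refine Finset.prod_congr rfl fun ω _ => ?_
    have e1 : (1 : Wc G r).left ω = 1 := rfl
    have e2 : (1 : Wc G r).right = 1 := rfl
    rw [e1, e2, h1, inv_one, one_mul]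
  rw [this]
  by_cases hij : i = j
  · subst hij
    simp
  · rw [Matrix.one_apply_ne hij]
    obtain ⟨ω, hω⟩ := Function.ne_iff.1 hij
    exact Finset.prod_eq_zero (Finset.mem_univ ω) (Matrix.one_apply_ne hω)

theorem Tm_mul {d : ℕ} (M : G → Matrix (Fin d) (Fin d) ℂ)
    (hm : ∀ g h, M (g * h) = M g * M h) (x y : Wc G r) :
    Tm M (x * y) = Tm M x * Tm M y := by
  ext i k
  rw [Matrix.mul_apply]
  have h1 : ∀ j : Cy r → Fin d, Tm M x i j * Tm M y j k =
      ∏ ω, (M (x.left ω) (i ω) (j (x.right⁻¹ * ω)) *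
        M (y.left (x.right⁻¹ * ω)) (j (x.right⁻¹ * ω)) (k (y.right⁻¹ * (x.right⁻¹ * ω)))) := by
    intro j
    rw [Finset.prod_mul_distrib]
    congr 1
    exact (Equiv.prod_comp (Equiv.mulLeft (x.right⁻¹))
      (fun ω => M (y.left ω) (j ω) (k (y.right⁻¹ * ω)))).symm
  rw [Finset.sum_congr rfl fun j _ => h1 j]
  have h2 : ∑ j : Cy r → Fin d, ∏ ω, (M (x.left ω) (i ω) (j (x.right⁻¹ * ω)) *
        M (y.left (x.right⁻¹ * ω)) (j (x.right⁻¹ * ω)) (k (y.right⁻¹ * (x.right⁻¹ * ω)))) =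
      ∑ j : Cy r → Fin d, ∏ ω, (M (x.left ω) (i ω) (j ω) *
        M (y.left (x.right⁻¹ * ω)) (j ω) (k (y.right⁻¹ * (x.right⁻¹ * ω)))) :=
    ((Equiv.mulLeft (x.right⁻¹)).arrowCongr (Equiv.refl (Fin d))).symm.sum_comp
      (fun j : Cy r → Fin d => ∏ ω, (M (x.left ω) (i ω) (j ω) *
        M (y.left (x.right⁻¹ * ω)) (j ω) (k (y.right⁻¹ * (x.right⁻¹ * ω)))))
  rw [h2]
  have h3 := Finset.prod_univ_sum (fun _ : Cy r => (Finset.univ : Finset (Fin d)))
    (fun ω s => M (x.left ω) (i ω) s *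
        M (y.left (x.right⁻¹ * ω)) s (k (y.right⁻¹ * (x.right⁻¹ * ω))))
  rw [Fintype.piFinset_univ] at h3
  rw [← h3]
  unfold Tm
  refine Finset.prod_congr rfl fun ω _ => ?_
  have e1 : (x * y).left ω = x.left ω * y.left (x.right⁻¹ * ω) := rfl
  have e2 : (x * y).right = x.right * y.right := rfl
  rw [e1, e2, hm, Matrix.mul_apply, mul_inv_rev, mul_assoc]

theorem Tm_trace_one {d : ℕ} (M : G → Matrix (Fin d) (Fin d) ℂ) (x : Wc G r)
    (hx : x.right = 1) : (Tm M x).trace = ∏ ω, (M (x.left ω)).trace := by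
  have h3 := Finset.prod_univ_sum (fun _ : Cy r => (Finset.univ : Finset (Fin d)))
    (fun ω s => M (x.left ω) s s)
  rw [Fintype.piFinset_univ] at h3
  show ∑ i, Tm M x i i = ∏ ω, ∑ s, M (x.left ω) s s
  rw [h3]
  refine Finset.sum_congr rfl fun i _ => ?_
  unfold Tm
  refine Finset.prod_congr rfl fun ω _ => ?_
  rw [hx, inv_one, one_mul]

theorem Tm_trace_ne {d : ℕ} (M : G → Matrix (Fin d) (Fin d) ℂ) (h1 : M 1 = 1)
    (hm : ∀ g h, M (g * h) = M g * M h) (x : Wc G r)
    (hx : x.right ≠ 1) : (Tm M x).trace = (M ((x ^ r).left 1)).trace := by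
  have hb := pw_bij (x.right⁻¹) (by rwa [Ne, inv_eq_one])
  have hr := pw_r (x.right⁻¹)
  obtain ⟨n, hn⟩ : ∃ n, r = n + 1 := ⟨r - 1, (Nat.succ_pred_prime (Fact.out : r.Prime)).symm⟩
  rw [← Pn_eq M h1 hm]
  subst hn
  rw [← cyc]
  set e : Fin (n + 1) ≃ Cy (n + 1) := Equiv.ofBijective _ hb with he
  show ∑ i, Tm M x i i = _
  rw [← (e.arrowCongr (Equiv.refl (Fin d))).sum_comp]
  refine Finset.sum_congr rfl fun p _ => ?_
  unfold Tm
  rw [← e.prod_comp]
  refine Finset.prod_congr rfl fun k _ => ?_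
  have e1 : ∀ k : Fin (n + 1), e k = (x.right⁻¹) ^ (k : ℕ) := fun k => rfl
  have e2 : ∀ k : Fin (n + 1), x.right⁻¹ * e k = e (k + 1) := by
    intro k
    rw [e1, e1, ← pow_succ']
    by_cases hk : k = Fin.last n
    · rw [hk, Fin.last_add_one, Fin.val_last, hr]
      simp
    · rw [Fin.val_add_one_of_lt (lt_of_le_of_ne (Fin.le_last k) hk)]
  have e3 : ∀ k : Fin (n + 1), (e.arrowCongr (Equiv.refl (Fin d))) p (e k) = p k := by
    intro k
    simp [Equiv.arrowCongr]
  rw [e2, e3, e3, e1]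

/-- JOB TRC -/
theorem t_TRC : S_TRC := by
  intro G _ _ r _ θ hθ
  obtain ⟨V, _, _, _, ρ, -, hc⟩ := hθ
  let b := Module.finBasis ℂ V
  let M : G → Matrix (Fin (Module.finrank ℂ V)) (Fin (Module.finrank ℂ V)) ℂ :=
    fun g => LinearMap.toMatrix b b (ρ g)
  have h1 : M 1 = 1 := by
    show LinearMap.toMatrix b b (ρ 1) = 1
    rw [map_one]
    exact LinearMap.toMatrix_one b
  have hm : ∀ g h, M (g * h) = M g * M h := by
    intro g h
    show LinearMap.toMatrix b b (ρ (g * h)) = _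
    rw [map_mul]
    exact LinearMap.toMatrix_mul b _ _
  have ht : ∀ g, (M g).trace = θ g := by
    intro g
    rw [hc]
    exact (LinearMap.trace_eq_matrix_trace ℂ b (ρ g)).symm
  refine ⟨(Cy r → Fin (Module.finrank ℂ V)) → ℂ, inferInstance, inferInstance, inferInstance,
    { toFun := fun x => Matrix.toLin' (Tm M x)
      map_one' := ?_
      map_mul' := ?_ }, ?_⟩
  · rw [Tm_one M h1]
    exact Matrix.toLin'_one
  · intro x y
    rw [Tm_mul M hm]
    exact Matrix.toLin'_mul _ _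
  · funext x
    show LinearMap.trace ℂ _ (Matrix.toLin' (Tm M x)) = _
    rw [Matrix.trace_toLin'_eq]
    unfold cch
    by_cases hx : x.right = 1
    · rw [if_pos hx, Tm_trace_one M x hx]
      exact Finset.prod_congr rfl fun ω _ => ht _
    · rw [if_neg hx, Tm_trace_ne M h1 hm x hx, ht]
      simp

end Pool.Agent.Q162.AM
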